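import Pool.Agent.Helper12.G.R_seed8.W603.LV.Wr

/-! The order of a Wronskian at a place. -/

set_option autoImplicit false

open FF

namespace Pool.Agent.W603.LV

variable {k K : Type*} [Field k] [Field K] [Algebra k K] [CharZero k] [IsFF k K] [IsAlgClosed k]

theorem ge_step (P : Place k K) {π : K} (hπ : P.ord π = 1) {δ : Derivation k K K} (hδ : δ π = 1)
    {a : ℕ} {g : K} (hg : Ge P (a : ℤ) g) : Ge P ((a - 1 : ℕ) : ℤ) (δ g) := by
  have hπ0 : π ≠ 0 := by
    rintro rfl
    rw [P.ord_zero] at hπ; omega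
  have hπ1 : Ge P 1 π := Or.inr hπ.ge
  cases a with
  | zero => simpa using der_reg P hπ δ hδ hg
  | succ b =>
    have h1 : Ge P 0 (g / π ^ (b + 1)) := by
      apply Ge.of_mul' (h := π ^ (b + 1)) (m := (b + 1 : ℕ)) (pow_ne_zero _ hπ0)
      · rw [P.ord_pow, hπ, mul_one]
      · rw [mul_div_cancel₀ _ (pow_ne_zero _ hπ0)]; simpa using hg
    have h2 := der_reg P hπ δ hδ h1
    have e : δ g = ((b + 1 : ℕ) : K) * π ^ b * (g / π ^ (b + 1)) +
        π ^ (b + 1) * δ (g / π ^ (b + 1)) := by
      have e1 : g = π ^ (b + 1) * (g / π ^ (b + 1)) := (mul_div_cancel₀ _ (pow_ne_zero _ hπ0)).symm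
      conv_lhs => rw [e1]
      rw [δ.leibniz, δ.leibniz_pow, hδ]
      simp only [smul_eq_mul, nsmul_eq_mul, Nat.add_sub_cancel, mul_one]
      ring
    rw [e, Nat.add_sub_cancel]
    refine Ge.add ?_ ?_
    · have := ((Ge.natCast (P := P) (b + 1)).mul (hπ1.pow b)).mul h1
      simpa using this
    · have := (hπ1.pow (b + 1)).mul h2
      exact this.mono (by push_cast; linarith)

theorem ge_iter (P : Place k K) {π : K} (hπ : P.ord π = 1) {δ : Derivation k K K} (hδ : δ π = 1)
    {a : ℕ} {g : K} (hg : Ge P (a : ℤ) g) (r : ℕ) : Ge P ((a - r : ℕ) : ℤ) ((⇑δ)^[r] g) := by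
  induction r with
  | zero => simpa using hg
  | succ r ih =>
    rw [Function.iterate_succ_apply']
    have := ge_step P hπ hδ ih
    rwa [Nat.sub_sub] at this

omit [CharZero k] [IsFF k K] [IsAlgClosed k] in
theorem ge_det (P : Place k K) {m : ℕ} (M : Matrix (Fin m) (Fin m) K) (L : ℤ)
    (e : Fin m → Fin m → ℤ) (hM : ∀ i j, Ge P (e i j) (M i j))
    (hL : ∀ σ : Equiv.Perm (Fin m), L ≤ ∑ i, e (σ i) i) : Ge P L M.det := by
  rw [Matrix.det_apply']
  refine Ge.sum _ _ fun σ _ => ?_
  have h1 := (Ge.intCast (P := P) (Equiv.Perm.sign σ : ℤ)).mul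
    (Ge.prod Finset.univ (fun i => M (σ i) i) (fun i => e (σ i) i) (fun i _ => hM _ _))
  exact h1.mono (by rw [zero_add]; exact hL σ)

/-- the sum `0 + 1 + ... + (m - 1)` -/
def tri (m : ℕ) : ℤ := ∑ r : Fin m, ((r : ℕ) : ℤ)

/-- Local estimate, for the two bounds of the loss. -/
theorem local_est (P : Place k K) {D : Derivation k K K} (hD : D ≠ 0) {m : ℕ}
    (f : Fin (m + 1) → K) (hf0 : ∀ i, f i ≠ 0) (hsum : ∑ i, f i = 0)
    (hW : wr D (fun l => f ((Fin.last m).succAbove l)) ≠ 0) (μ : ℤ) (hμ : ∀ i, μ ≤ P.ord (f i))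
    (i0 : Fin (m + 1)) (hi0 : P.ord (f i0) = μ) (loss : ℤ)
    (hloss : tri m ≤ loss ∨
      ((m - 1 : ℕ) : ℤ) * ((Finset.univ.filter fun i => μ < P.ord (f i)).card : ℤ) ≤ loss) :
    tri m * vo P D + ∑ i, P.ord (f i) - μ - loss ≤
      P.ord (wr D (fun l => f ((Fin.last m).succAbove l))) := by
  classical
  set π := unif P with hπd
  have hπ : P.ord π = 1 := ord_unif P
  have hπ0 : π ≠ 0 := by
    intro h
    rw [h, P.ord_zero] at hπ; omega
  have hu0 : D π ≠ 0 := der_pi_ne_zero hD P hπ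
  set u := D π with hu
  set δ : Derivation k K K := u⁻¹ • D with hδd
  have hδ : δ π = 1 := by
    rw [hδd, Derivation.coe_smul, Pi.smul_apply, smul_eq_mul, ← hu, inv_mul_cancel₀ hu0]
  have hDδ : D = u • δ := by
    rw [hδd, smul_smul, mul_inv_cancel₀ hu0, one_smul]
  -- replace the last index by `i0`
  have hord : P.ord (wr D (fun l => f ((Fin.last m).succAbove l))) =
      P.ord (wr D (fun l => f (i0.succAbove l))) ∧ wr D (fun l => f (i0.succAbove l)) ≠ 0 := by
    rcases wr_succAbove D f hsum (Fin.last m) i0 with h | h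
    · rw [← h]; exact ⟨rfl, hW⟩
    · rw [h, P.ord_neg]
      refine ⟨rfl, fun h0 => hW ?_⟩
      rw [h, h0, neg_zero]
  obtain ⟨h1, hW'⟩ := hord
  rw [h1]
  set c := π ^ μ with hc
  have hc0 : c ≠ 0 := zpow_ne_zero _ hπ0
  have hcord : P.ord c = μ := by rw [hc, P.ord_zpow, hπ, mul_one]
  set g : Fin m → K := fun l => f (i0.succAbove l) / c with hg
  have hfg : (fun l => f (i0.succAbove l)) = fun l => c * g l := by
    funext l
    simp only [hg]; field_simp
  have h2 : wr D (fun l => f (i0.succAbove l)) = (∏ r : Fin m, u ^ (r : ℕ) * c) * wr δ g := by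
    rw [hfg]
    conv_lhs => rw [hDδ]
    exact wr_change δ u c g
  have hWg : wr δ g ≠ 0 := by
    intro h0
    rw [h0, mul_zero] at h2
    exact hW' h2
  have hprod0 : (∏ r : Fin m, u ^ (r : ℕ) * c) ≠ 0 :=
    Finset.prod_ne_zero_iff.2 fun r _ => mul_ne_zero (pow_ne_zero _ hu0) hc0
  have hprod : P.ord (∏ r : Fin m, u ^ (r : ℕ) * c) = tri m * vo P D + m * μ := by
    have h3 : ∀ s : Finset (Fin m), P.ord (∏ r ∈ s, u ^ (r : ℕ) * c) =
        ∑ r ∈ s, (((r : ℕ) : ℤ) * vo P D + μ) := by
      intro s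
      induction s using Finset.induction_on with
      | empty => simpa using P.ord_one
      | insert a s ha ih =>
        rw [Finset.prod_insert ha, Finset.sum_insert ha, P.ord_mul
          (mul_ne_zero (pow_ne_zero _ hu0) hc0)
          (Finset.prod_ne_zero_iff.2 fun r _ => mul_ne_zero (pow_ne_zero _ hu0) hc0), ih,
          P.ord_mul (pow_ne_zero _ hu0) hc0, P.ord_pow, hcord]
        rfl
    rw [h3, Finset.sum_add_distrib, ← Finset.sum_mul]
    simp [tri]
  -- orders of the functions `g`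
  have hfi0 : ∀ l, f (i0.succAbove l) ≠ 0 := fun l => hf0 _
  have hgord : ∀ l, P.ord (g l) = P.ord (f (i0.succAbove l)) - μ := by
    intro l
    simp only [hg]
    rw [P.ord_div (hfi0 l) hc0, hcord]
  set a : Fin m → ℕ := fun l => (P.ord (g l)).toNat with ha
  have haord : ∀ l, (a l : ℤ) = P.ord (f (i0.succAbove l)) - μ := by
    intro l
    simp only [ha]
    rw [Int.toNat_of_nonneg, hgord]
    rw [hgord]
    have := hμ (i0.succAbove l)
    omega
  have hgG : ∀ l, Ge P (a l : ℤ) (g l) := by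
    intro l
    right
    rw [haord, hgord]
  have hsuma : ∑ l, (a l : ℤ) + m * μ = ∑ i, P.ord (f i) - μ := by
    have h4 : ∑ l, (a l : ℤ) = ∑ l, P.ord (f (i0.succAbove l)) - m * μ := by
      rw [Finset.sum_congr rfl fun l _ => haord l, Finset.sum_sub_distrib]
      simp
    rw [h4, Fin.sum_univ_succAbove _ i0, hi0]; ring
  -- the bound for the determinant
  have hL : Ge P (∑ l, (a l : ℤ) - loss) (wr δ g) := by
    unfold wr
    refine ge_det P _ _ (fun i r => ((a i - (r : ℕ) : ℕ) : ℤ)) (fun i r => ?_) (fun σ => ?_)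
    · exact ge_iter P hπ hδ (hgG i) r
    · have hσ : ∑ l, (a l : ℤ) = ∑ i, (a (σ i) : ℤ) := (Equiv.sum_comp σ (fun i => (a i : ℤ))).symm
      rw [hσ]
      rcases hloss with hl | hl
      · have h5 : ∑ i, (a (σ i) : ℤ) - tri m ≤ ∑ i, (((a (σ i) - (i : ℕ) : ℕ)) : ℤ) := by
          unfold tri
          rw [← Finset.sum_sub_distrib]
          refine Finset.sum_le_sum fun i _ => ?_
          omega
        linarith
      · have h6 : ∑ i : Fin m, (a (σ i) : ℤ) -
            ∑ i : Fin m, (if 0 < a (σ i) then ((m - 1 : ℕ) : ℤ) else 0) ≤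
            ∑ i : Fin m, (((a (σ i) - (i : ℕ) : ℕ)) : ℤ) := by
          rw [← Finset.sum_sub_distrib]
          refine Finset.sum_le_sum fun i _ => ?_
          have := i.2
          split_ifs with h7 <;> omega
        have h7 : ∑ i : Fin m, (if 0 < a (σ i) then ((m - 1 : ℕ) : ℤ) else 0) =
            ∑ i : Fin m, (if 0 < a i then ((m - 1 : ℕ) : ℤ) else 0) :=
          Equiv.sum_comp σ (fun i => if 0 < a i then ((m - 1 : ℕ) : ℤ) else 0)
        have h8 : ∑ i : Fin m, (if 0 < a i then ((m - 1 : ℕ) : ℤ) else 0) ≤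
            ((m - 1 : ℕ) : ℤ) * ((Finset.univ.filter fun i => μ < P.ord (f i)).card : ℤ) := by
          rw [← Finset.sum_filter, Finset.sum_const, nsmul_eq_mul, mul_comm]
          refine mul_le_mul_of_nonneg_left ?_ (by positivity)
          have h9 : (Finset.univ.filter fun i : Fin m => 0 < a i).card ≤
              (Finset.univ.filter fun i : Fin (m + 1) => μ < P.ord (f i)).card := by
            refine Finset.card_le_card_of_injOn (fun l => i0.succAbove l) ?_ ?_
            · intro l hl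
              simp only [Finset.coe_filter, Finset.mem_univ, true_and, Set.mem_ofPred_eq] at hl ⊢
              have := haord l
              omega
            · exact fun x _ y _ h => Fin.succAbove_right_injective h
          exact_mod_cast h9
        linarith
  have hLo := hL.resolve_left hWg
  rw [h2, P.ord_mul hprod0 hWg, hprod]
  linarith

end Pool.Agent.W603.LV
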