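import Pool.Agent.Helper12.G.R_seed8.W603.LV.Der2

/-! Order of a derivation at a place; it vanishes at almost all places. -/

set_option autoImplicit false

open Polynomial FF

namespace Pool.Agent.W603.LV

variable {k K : Type*} [Field k] [Field K] [Algebra k K]

/-- a uniformizer at `P` -/
noncomputable def unif (P : Place k K) : K := P.surj.choose

theorem ord_unif (P : Place k K) : P.ord (unif P) = 1 := P.surj.choose_spec.2

/-- the order of the derivation `D` at `P` -/
noncomputable def vo (P : Place k K) (D : Derivation k K K) : ℤ := P.ord (D (unif P))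

variable [CharZero k] [IsFF k K] [IsAlgClosed k]

/-- `D f` is a regular multiple of `D π` -/
theorem der_mul (P : Place k K) {π : K} (hπ : P.ord π = 1) {D : Derivation k K K} (hD : D ≠ 0)
    {f : K} (hf : Ge P 0 f) : ∃ g, Ge P 0 g ∧ D f = D π * g := by
  have h0 := der_pi_ne_zero hD P hπ
  have h1 := der_reg P hπ ((D π)⁻¹ • D) (by simp [h0]) hf
  refine ⟨_, h1, ?_⟩
  simp only [Derivation.coe_smul, Pi.smul_apply, smul_eq_mul]
  field_simp

theorem vo_eq (P : Place k K) {π : K} (hπ : P.ord π = 1) {D : Derivation k K K} (hD : D ≠ 0) :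
    P.ord (D π) = vo P D := by
  have h0 := der_pi_ne_zero hD P hπ
  have h1 := der_pi_ne_zero hD P (ord_unif P)
  have key : ∀ π' π'' : K, P.ord π' = 1 → P.ord π'' = 1 → D π' ≠ 0 → D π'' ≠ 0 →
      P.ord (D π'') ≤ P.ord (D π') := by
    intro π' π'' h' h'' h3 h4
    obtain ⟨g, hg, e⟩ := der_mul P h'' hD (f := π') (Or.inr (by omega))
    have hg0 : g ≠ 0 := by
      rintro rfl
      rw [mul_zero] at e; exact h3 e
    rw [e, P.ord_mul h4 hg0]
    have := hg.resolve_left hg0
    omega
  exact le_antisymm (key _ _ (ord_unif P) hπ h1 h0) (key _ _ hπ (ord_unif P) h0 h1)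

theorem vo_smul (P : Place k K) {D : Derivation k K K} (hD : D ≠ 0) {h : K} (hh : h ≠ 0) :
    vo P (h • D) = P.ord h + vo P D := by
  unfold vo
  rw [Derivation.coe_smul, Pi.smul_apply, smul_eq_mul,
    P.ord_mul hh (der_pi_ne_zero hD P (ord_unif P))]

/-- the order of a derivative -/
theorem ord_der (P : Place k K) {D : Derivation k K K} (hD : D ≠ 0) {f : K} (hf : P.ord f ≠ 0) :
    D f ≠ 0 ∧ P.ord (D f) = P.ord f - 1 + vo P D := by
  have hf0 : f ≠ 0 := by
    rintro rfl
    exact hf P.ord_zero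
  have hπ := ord_unif P
  have hπ0 : unif P ≠ 0 := by
    intro h
    rw [h, P.ord_zero] at hπ; omega
  set π := unif P with hπd
  set a := P.ord f with ha
  -- f = u π^a
  obtain ⟨u, hu⟩ : ∃ u, u = f * π ^ (-a) := ⟨_, rfl⟩
  have hu0 : u ≠ 0 := by rw [hu]; exact mul_ne_zero hf0 (zpow_ne_zero _ hπ0)
  have huo : P.ord u = 0 := by
    rw [hu, P.ord_mul hf0 (zpow_ne_zero _ hπ0), P.ord_zpow, hπ, ← ha]; ring
  have hfu : f = u * π ^ a := by
    rw [hu, mul_assoc, ← zpow_add₀ hπ0]; simp
  obtain ⟨g, hg, hDu⟩ := der_mul P hπ hD (f := u) (Or.inr huo.ge)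
  have hDπ := der_pi_ne_zero hD P hπ
  have e : D f = D π * π ^ (a - 1) * (g * π + (a : K) * u) := by
    have h1 : D (π ^ a) = (a : K) * π ^ (a - 1) * D π := by
      rw [Derivation.leibniz_zpow]
      simp only [smul_eq_mul, zsmul_eq_mul]
      ring
    rw [hfu, D.leibniz, h1, hDu]
    simp only [smul_eq_mul]
    have h2 : π ^ a = π ^ (a - 1) * π := by
      rw [← zpow_add_one₀ hπ0]; congr 1; ring
    rw [h2]; ring
  have haK : (a : K) ≠ 0 := by
    intro h
    have h1 : algebraMap k K (a : k) = 0 := by rw [map_intCast]; exact h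
    have h2 := (map_eq_zero (algebraMap k K)).1 h1
    exact hf (by exact_mod_cast h2)
  have hak : P.ord (a : K) = 0 := by
    have h1 : algebraMap k K (a : k) = (a : K) := by rw [map_intCast]
    rw [← h1]
    apply P.ord_const
    exact_mod_cast hf
  have h2 : P.ord ((a : K) * u) = 0 := by rw [P.ord_mul haK hu0, hak, huo]; rfl
  have h3 : g * π + (a : K) * u ≠ 0 ∧ P.ord (g * π + (a : K) * u) = 0 := by
    by_cases hg0 : g = 0
    · rw [hg0, zero_mul, zero_add]; exact ⟨mul_ne_zero haK hu0, h2⟩
    · have h4 : 0 < P.ord (g * π) := by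
        rw [P.ord_mul hg0 hπ0, hπ]
        have := hg.resolve_left hg0
        omega
      have := P.ord_add_eq (f := (a : K) * u) (g := g * π) (mul_ne_zero haK hu0)
        (mul_ne_zero hg0 hπ0) (by omega)
      rw [add_comm, h2] at this
      exact this
  rw [e]
  refine ⟨mul_ne_zero (mul_ne_zero hDπ (zpow_ne_zero _ hπ0)) h3.1, ?_⟩
  rw [P.ord_mul (mul_ne_zero hDπ (zpow_ne_zero _ hπ0)) h3.1,
    P.ord_mul hDπ (zpow_ne_zero _ hπ0), P.ord_zpow, hπ, h3.2]
  unfold vo
  rw [← hπd]; ring


omit [IsAlgClosed k] in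
/-- a generator of the function field over `k(t)` -/
theorem exists_gen {t : K} (ht : Transcendental k t) : ∃ y : K, ∀ f : K,
    ∃ (A : k[X][X]) (B : k[X]), aeval t B ≠ 0 ∧ f * aeval t B = E2 t y A := by
  classical
  have hfin := IsFF.finite ht
  have halg := IsFF.isAlgebraic ht
  have hchar : CharZero (IntermediateField.adjoin k {t}) :=
    charZero_of_injective_algebraMap (algebraMap k (IntermediateField.adjoin k {t})).injective
  obtain ⟨y, hy⟩ := Field.exists_primitive_element (IntermediateField.adjoin k {t}) K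
  refine ⟨y, fun f => ?_⟩
  have hf : f ∈ IntermediateField.adjoin (IntermediateField.adjoin k {t}) {y} := by
    rw [hy]; trivial
  have hyi : IsIntegral (IntermediateField.adjoin k {t}) y := (halg.isAlgebraic y).isIntegral
  obtain ⟨p, hp⟩ : ∃ p : (IntermediateField.adjoin k {t})[X], aeval y p = f := by
    rw [← IntermediateField.mem_toSubalgebra,
      IntermediateField.adjoin_simple_toSubalgebra_of_isAlgebraic hyi.isAlgebraic,
      Algebra.adjoin_singleton_eq_range_aeval] at hf
    exact hf
  -- the coefficients are fractions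
  have hc : ∀ a : IntermediateField.adjoin k {t}, ∃ r s : k[X], aeval t s ≠ 0 ∧
      (a : K) = aeval t r / aeval t s := by
    rintro ⟨a, ha⟩
    rw [IntermediateField.mem_adjoin_simple_iff] at ha
    obtain ⟨r, s, hrs⟩ := ha
    by_cases hs : aeval t s = 0
    · refine ⟨0, 1, by simp, ?_⟩
      simp only [map_zero, zero_div]
      rw [hrs, hs, div_zero]
    · exact ⟨r, s, hs, hrs⟩
  choose r s hs hrs using hc
  refine ⟨∑ i ∈ p.support, monomial i (r (p.coeff i) * ∏ j ∈ p.support.erase i, s (p.coeff j)),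
    ∏ j ∈ p.support, s (p.coeff j), ?_, ?_⟩
  · rw [map_prod]
    exact Finset.prod_ne_zero_iff.2 fun j _ => hs _
  · have h2 : f = ∑ i ∈ p.support, (p.coeff i : K) * y ^ i := by
      rw [← hp, aeval_def, eval₂_eq_sum, Polynomial.sum]
      rfl
    conv_lhs => rw [h2]
    rw [Finset.sum_mul, map_sum]
    refine Finset.sum_congr rfl fun i hi => ?_
    rw [E2_monomial, map_mul, map_prod, map_prod, ← Finset.mul_prod_erase p.support _ hi, hrs]
    have := hs (p.coeff i)
    field_simp

end Pool.Agent.W603.LV
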