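import Pool.Agent.Helper12.G.R_seed8.W603.LV.Der

/-! The derivation `d/dπ` preserves the local ring. -/

set_option autoImplicit false

open Polynomial FF

namespace Pool.Agent.W603.LV

variable {k K : Type*} [Field k] [Field K] [Algebra k K]

section
variable (P : Place k K) {π : K} (hπ : Ge P 0 π)

/-- polynomials in `π` as elements of the local ring -/
noncomputable def psi : k[X] →+* P.O :=
  ((aeval π : k[X] →ₐ[k] K) : k[X] →+* K).codRestrict P.O (fun p => ge_aeval P hπ p)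

theorem coe_eval (y : P.O) (H : k[X][X]) :
    ((eval y (H.map (psi P hπ)) : P.O) : K) = E2 π (y : K) H := by
  rw [eval_map, E2_apply]
  have := hom_eval₂ H (psi P hπ) P.O.subtype y
  exact this

end

theorem reg_E2 (P : Place k K) {π : K} (hπ : Ge P 0 π) {y : K} (hy : Ge P 0 y) (H : k[X][X]) :
    Ge P 0 (E2 π y H) := by
  have := coe_eval P hπ ⟨y, hy⟩ H
  rw [← this]
  exact (eval (⟨y, hy⟩ : P.O) (H.map (psi P hπ))).2

theorem E2_sub (P : Place k K) {π : K} (hπ : Ge P 0 π) {y z : K} (hy : Ge P 0 y) (hz : Ge P 0 z)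
    {N : ℤ} (h : Ge P N (y - z)) (H : k[X][X]) : Ge P N (E2 π y H - E2 π z H) := by
  obtain ⟨c, hc⟩ := sub_dvd_eval_sub (⟨y, hy⟩ : P.O) ⟨z, hz⟩ (H.map (psi P hπ))
  have h1 := congrArg (Subtype.val : P.O → K) hc
  have h2 : E2 π y H - E2 π z H = (y - z) * (c : K) := by
    have e1 := coe_eval P hπ ⟨y, hy⟩ H
    have e2 := coe_eval P hπ ⟨z, hz⟩ H
    rw [← e1, ← e2]
    exact h1
  rw [h2]
  have := h.mul (M := 0) (g := (c : K)) c.2
  simpa using this

theorem E2_taylor (P : Place k K) {π : K} (hπ : Ge P 0 π) {y z : K} (hy : Ge P 0 y)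
    (hz : Ge P 0 z) (H : k[X][X]) : ∃ c : K, Ge P 0 c ∧
      E2 π z H = E2 π y H + E2 π y (derivative H) * (z - y) + c * (z - y) ^ 2 := by
  obtain ⟨c, hc⟩ := binomExpansion (H.map (psi P hπ)) (⟨y, hy⟩ : P.O) (⟨z, hz⟩ - ⟨y, hy⟩)
  refine ⟨(c : K), c.2, ?_⟩
  have h1 := congrArg (Subtype.val : P.O → K) hc
  have e1 := coe_eval P hπ ⟨y, hy⟩ H
  have e2 := coe_eval P hπ ⟨z, hz⟩ H
  have e3 := coe_eval P hπ ⟨y, hy⟩ (derivative H)
  rw [add_sub_cancel, ← Polynomial.derivative_map] at *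
  rw [← e1, ← e2, ← e3]
  exact h1

variable [CharZero k] [IsFF k K] [IsAlgClosed k]

/-- `d/dπ` preserves the local ring. -/
theorem der_reg (P : Place k K) {π : K} (hπ : P.ord π = 1) (D : Derivation k K K) (hD : D π = 1)
    {f : K} (hf : Ge P 0 f) : Ge P 0 (D f) := by
  have hπ0 : Ge P 0 π := Or.inr (by omega)
  have ht : Transcendental k π := P.transcendental_of_ord_ne (by omega)
  obtain ⟨G, hG, hG'⟩ := exists_poly ht f
  have hM0 : 0 ≤ P.ord (E2 π f (derivative G)) :=
    (reg_E2 P hπ0 hf (derivative G)).resolve_left hG'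
  obtain ⟨M, hM⟩ := Int.eq_ofNat_of_zero_le hM0
  obtain ⟨p, hp⟩ := approx P hπ hf (M + 1)
  set q : K := aeval π p with hq
  have hq0 : Ge P 0 q := ge_aeval P hπ0 p
  have hqf : Ge P (M + 1 : ℕ) (q - f) := by
    rw [← neg_sub]; exact hp.neg
  have hDq : Ge P 0 (D q) := by
    rw [hq, Derivation.map_aeval, hD, smul_eq_mul, mul_one]
    exact ge_aeval P hπ0 _
  -- the value at `q`
  have h1 : Ge P (M + M + 1 : ℕ) (E2 π q G) := by
    obtain ⟨c, hc, e⟩ := E2_taylor P hπ0 hf hq0 G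
    rw [e, hG, zero_add]
    refine Ge.add ?_ ?_
    · have : Ge P (M : ℤ) (E2 π f (derivative G)) := Or.inr hM.ge
      have := this.mul hqf
      exact this.mono (by push_cast; linarith)
    · have := hc.mul (hqf.pow 2)
      exact this.mono (by push_cast; linarith)
  have e1 : E2 π q G = aeval π (eval p G) := by
    rw [hq, E2_apply]
    exact eval₂_at_apply ((aeval π : k[X] →ₐ[k] K) : k[X] →+* K) p
  rw [e1] at h1
  have h2 : Ge P (M + M : ℕ) (D (aeval π (eval p G))) := by
    rw [Derivation.map_aeval, hD, smul_eq_mul, mul_one]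
    exact ge_derivative P hπ _ _ h1
  rw [← e1, chain D π q G, hD, mul_one] at h2
  -- congruences
  have h3 : Ge P (M : ℤ) (E2 π q (derivative G)) := by
    have h4 := E2_sub P hπ0 hq0 hf hqf (derivative G)
    have h5 : Ge P (M : ℤ) (E2 π f (derivative G)) := Or.inr hM.ge
    have h6 := (h4.mono (by push_cast; linarith : (M : ℤ) ≤ _)).add h5
    simpa using h6
  have h4 : Ge P (M : ℤ) (E2 π q (dX G)) := by
    have h5 := (h2.mono (by push_cast; linarith : (M : ℤ) ≤ _)).sub (h3.mul hDq |>.mono (by simp))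
    simpa using h5
  have h5 : Ge P (M : ℤ) (E2 π f (dX G)) := by
    have h6 := E2_sub P hπ0 hq0 hf hqf (dX G)
    have h7 := h4.sub (h6.mono (by push_cast; linarith : (M : ℤ) ≤ _))
    simpa using h7
  have h6 := chain D π f G
  rw [hG, map_zero, hD, mul_one] at h6
  have h7 : E2 π f (derivative G) * D f = - E2 π f (dX G) := by linear_combination -h6
  have h8 : Ge P (0 + M : ℤ) (E2 π f (derivative G) * D f) := by
    rw [h7, zero_add]; exact h5.neg
  exact Ge.of_mul' hG' hM h8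


omit [IsAlgClosed k] in
theorem der_ne_zero {D : Derivation k K K} (hD : D ≠ 0) {t : K} (ht : Transcendental k t) :
    D t ≠ 0 := by
  intro h0
  apply hD
  ext f
  obtain ⟨c, hc⟩ := ratio ht f
  rw [hc D, h0]; simp

theorem der_pi_ne_zero {D : Derivation k K K} (hD : D ≠ 0) (P : Place k K) {π : K}
    (hπ : P.ord π = 1) : D π ≠ 0 :=
  der_ne_zero hD (P.transcendental_of_ord_ne (by omega))

end Pool.Agent.W603.LV
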