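import Pool.Agent.Helper12.G.R_seed8.W603.LV.Ram

/-! Existence of a nonzero derivation, and the canonical degree. -/

set_option autoImplicit false

open Polynomial FF

namespace Pool.Agent.W603.LV

variable {k K : Type*} [Field k] [Field K] [Algebra k K] [CharZero k] [IsFF k K]

theorem exists_der : ∃ D : Derivation k K K, D ≠ 0 := by
  obtain ⟨t, ht⟩ := IsFF.exists_transcendental (k := k) (K := K)
  have hinj : Function.Injective (aeval t : k[X] →ₐ[k] K) := transcendental_iff_injective.1 ht
  let _ : Algebra k[X] K := ((aeval t : k[X] →ₐ[k] K) : k[X] →+* K).toAlgebra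
  have hst : IsScalarTower k k[X] K := IsScalarTower.of_algebraMap_eq' (by
    ext c
    simp [RingHom.algebraMap_toAlgebra])
  have hfs : FaithfulSMul k[X] K := (faithfulSMul_iff_algebraMap_injective _ _).2 hinj
  have halg : Algebra.IsAlgebraic k[X] K := by
    constructor
    intro f
    obtain ⟨G, hG, hG'⟩ := exists_poly ht f
    refine ⟨G, ?_, hG⟩
    rintro rfl
    apply hG'
    rw [derivative_zero, map_zero]
  let _ : Algebra (FractionRing k[X]) K := FractionRing.liftAlgebra k[X] K
  have hst2 : IsScalarTower k[X] (FractionRing k[X]) K := inferInstance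
  have halg2 : Algebra.IsAlgebraic (FractionRing k[X]) K :=
    (IsFractionRing.comap_isAlgebraic_iff (A := k[X]) (K := FractionRing k[X]) (C := K)).1 halg
  have hchar : CharZero (FractionRing k[X]) := inferInstance
  have hsep : Algebra.IsSeparable (FractionRing k[X]) K := inferInstance
  have h1 : Algebra.FormallyEtale (FractionRing k[X]) K := Algebra.FormallyEtale.of_isSeparable _ _
  have h2 : Algebra.FormallyEtale k[X] (FractionRing k[X]) :=
    Algebra.FormallyEtale.of_isLocalization (nonZeroDivisors k[X])
  have h3 : Algebra.FormallyEtale k[X] K := Algebra.FormallyEtale.comp k[X] (FractionRing k[X]) K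
  let e := KaehlerDifferential.tensorKaehlerEquivOfFormallyEtale k k[X] K
  let l : Ω[k[X]⁄k] →ₗ[k[X]] K :=
    (Algebra.linearMap k[X] K).comp (KaehlerDifferential.polynomialEquiv k).toLinearMap
  let L : Ω[K⁄k] →ₗ[K] K := (LinearMap.liftBaseChange K l).comp e.symm.toLinearMap
  let D : Derivation k K K := L.compDer (KaehlerDifferential.D k K)
  refine ⟨D, fun h0 => ?_⟩
  have h4 : D t = 1 := by
    have h5 : t = algebraMap k[X] K X := by
      simp [RingHom.algebraMap_toAlgebra]
    change L (KaehlerDifferential.D k K t) = 1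
    change LinearMap.liftBaseChange K l (e.symm (KaehlerDifferential.D k K t)) = 1
    rw [h5, KaehlerDifferential.tensorKaehlerEquivOfFormallyEtale_symm_D_algebraMap]
    simp [l]
  rw [h0] at h4
  simp at h4

variable (k K) in
open Classical in
/-- a nonzero `k`-derivation of `K` -/
noncomputable def der : Derivation k K K :=
  if h : ∃ D : Derivation k K K, D ≠ 0 then h.choose else 0

omit [CharZero k] [IsFF k K] in
variable (k K) in
/-- The canonical degree `2 g - 2`: minus the degree of the divisor of a nonzero rational vector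
field, whose order at `P` is the order of `D π` for a uniformizer `π` at `P`. -/
noncomputable def canDeg : ℤ := - ∑ᶠ P : Place k K, vo P (der k K)

theorem der_ne : der k K ≠ 0 := by
  unfold der
  rw [dif_pos exists_der]
  exact (exists_der (k := k) (K := K)).choose_spec

/-- the space of derivations is one-dimensional -/
theorem der_smul {D D' : Derivation k K K} (hD : D ≠ 0) : ∃ h : K, D' = h • D := by
  obtain ⟨t, ht⟩ := IsFF.exists_transcendental (k := k) (K := K)
  have h0 := der_ne_zero hD ht
  refine ⟨D' t / D t, ?_⟩
  ext f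
  obtain ⟨c, hc⟩ := ratio ht f
  rw [Derivation.coe_smul, Pi.smul_apply, smul_eq_mul, hc D, hc D']
  field_simp

variable [IsAlgClosed k]

theorem deg_one (P : Place k K) : P.deg = 1 := by
  have h1 := IsAlgClosed.algebraMap_bijective_of_isIntegral (k := k) (K := P.RF)
  have h2 : Module.finrank k P.RF = Module.finrank k k :=
    (LinearEquiv.finrank_eq (LinearEquiv.ofBijective (Algebra.linearMap k P.RF) h1)).symm
  unfold Place.deg
  rw [h2, Module.finrank_self]

theorem sum_ord (f : K) : ∑ᶠ P : Place k K, P.ord f = 0 := by
  have h1 := ddeg_divisor (k := k) f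
  unfold ddeg Finsupp.sum at h1
  rw [← h1, finsum_eq_sum_of_support_subset (s := (divisor k f).support)]
  · refine Finset.sum_congr rfl fun P _ => ?_
    change P.ord f = divisor k f P * (P.deg : ℤ)
    rw [deg_one, divisor_apply]; simp
  · intro P hP
    rw [Finset.mem_coe, Finsupp.mem_support_iff, divisor_apply]
    exact hP

theorem sum_ord_finset (f : K) (T : Finset (Place k K)) (hT : ∀ P, P.ord f ≠ 0 → P ∈ T) :
    ∑ P ∈ T, P.ord f = 0 := by
  rw [← sum_ord (k := k) f, finsum_eq_sum_of_support_subset (s := T)]
  intro P hP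
  exact hT P hP

theorem canDeg_eq {D : Derivation k K K} (hD : D ≠ 0) :
    canDeg k K = - ∑ᶠ P : Place k K, vo P D := by
  obtain ⟨h, hh⟩ := der_smul (D' := der k K) hD
  have h0 : h ≠ 0 := by
    rintro rfl
    rw [zero_smul] at hh
    exact der_ne hh
  unfold canDeg
  rw [hh]
  have h1 : (fun P : Place k K => vo P (h • D)) = fun P => P.ord h + vo P D := by
    funext P; exact vo_smul P hD h0
  rw [h1, finsum_add_distrib (finite_support h) (vo_finite hD), sum_ord, zero_add]

theorem canDeg_finset {D : Derivation k K K} (hD : D ≠ 0) (T : Finset (Place k K))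
    (hT : ∀ P, vo P D ≠ 0 → P ∈ T) : ∑ P ∈ T, vo P D = - canDeg k K := by
  rw [canDeg_eq hD, neg_neg, finsum_eq_sum_of_support_subset (s := T)]
  intro P hP
  exact hT P hP

/-- constants of a nonzero derivation -/
theorem const_of_der {D : Derivation k K K} (hD : D ≠ 0) {h : K} (hh : D h = 0) :
    ∃ c : k, h = algebraMap k K c := by
  have h1 : IsAlgebraic k h := by
    by_contra hcon
    exact der_ne_zero hD hcon hh
  have h2 := IsAlgClosed.degree_eq_one_of_irreducible k (minpoly.irreducible h1.isIntegral)
  obtain ⟨c, hc⟩ := minpoly.mem_range_of_degree_eq_one k h h2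
  exact ⟨c, hc.symm⟩

end Pool.Agent.W603.LV
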