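import Pool.Agent.Helper12.G.R_seed8.W603.LV.Loc

/-! Heights of functions, and the height inequality for linearly independent solutions of a
generalised unit equation. -/

set_option autoImplicit false

open FF

namespace Pool.Agent.W603.LV

variable {k K : Type*} [Field k] [Field K] [Algebra k K]

variable (k) in
/-- The height (degree) of a function: its number of poles, with multiplicity. -/
noncomputable def hgt (g : K) : ℤ := ∑ᶠ P : Place k K, max (-P.ord g) 0

theorem hgt_nonneg (g : K) : 0 ≤ hgt k g := finsum_nonneg fun _ => le_max_right _ _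

variable [CharZero k] [IsFF k K]

omit [CharZero k] [IsFF k K] in
theorem hgt_finset (g : K) (T : Finset (Place k K)) (hT : ∀ P, P.ord g ≠ 0 → P ∈ T) :
    hgt k g = ∑ P ∈ T, max (-P.ord g) 0 := by
  unfold hgt
  rw [finsum_eq_sum_of_support_subset (s := T)]
  intro P hP
  apply hT P
  intro h
  apply hP
  simp [h]

theorem exists_supp {ι : Type*} (s : Finset ι) (f : ι → K) :
    ∃ T : Finset (Place k K), ∀ i ∈ s, ∀ P : Place k K, P.ord (f i) ≠ 0 → P ∈ T := by
  classical
  refine ⟨s.biUnion fun i => (finite_support (k := k) (f i)).toFinset, fun i hi P hP => ?_⟩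
  rw [Finset.mem_biUnion]
  exact ⟨i, hi, by simpa using hP⟩

theorem hgt_mul {f g : K} (hf : f ≠ 0) (hg : g ≠ 0) : hgt k (f * g) ≤ hgt k f + hgt k g := by
  obtain ⟨T, hT⟩ := exists_supp (k := k) (Finset.univ : Finset (Fin 2)) ![f, g]
  have h1 : ∀ P : Place k K, P.ord f ≠ 0 → P ∈ T := fun P => hT 0 (Finset.mem_univ _) P
  have h2 : ∀ P : Place k K, P.ord g ≠ 0 → P ∈ T := fun P => hT 1 (Finset.mem_univ _) P
  have h3 : ∀ P : Place k K, P.ord (f * g) ≠ 0 → P ∈ T := by
    intro P hP
    by_contra hcon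
    apply hP
    rw [P.ord_mul hf hg]
    by_cases h4 : P.ord f = 0
    · by_cases h5 : P.ord g = 0
      · rw [h4, h5]; rfl
      · exact absurd (h2 P h5) hcon
    · exact absurd (h1 P h4) hcon
  rw [hgt_finset _ T h1, hgt_finset _ T h2, hgt_finset _ T h3, ← Finset.sum_add_distrib]
  refine Finset.sum_le_sum fun P _ => ?_
  rw [P.ord_mul hf hg]
  omega

omit [CharZero k] [IsFF k K] in
theorem hgt_one : hgt k (1 : K) = 0 := by
  rw [hgt_finset (k := k) (1 : K) ∅ (fun P h => absurd P.ord_one h)]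
  rfl

theorem hgt_pow {f : K} (_hf : f ≠ 0) (n : ℕ) : hgt k (f ^ n) = n * hgt k f := by
  obtain ⟨T, hT⟩ := exists_supp (k := k) (Finset.univ : Finset (Fin 1)) ![f]
  have h1 : ∀ P : Place k K, P.ord f ≠ 0 → P ∈ T := fun P => hT 0 (Finset.mem_univ _) P
  have h3 : ∀ P : Place k K, P.ord (f ^ n) ≠ 0 → P ∈ T := by
    intro P hP
    apply h1
    intro h0
    apply hP
    rw [P.ord_pow, h0, mul_zero]
  rw [hgt_finset _ T h1, hgt_finset _ T h3, Finset.mul_sum]
  refine Finset.sum_congr rfl fun P _ => ?_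
  rw [P.ord_pow, mul_max_of_nonneg _ _ (by positivity)]
  simp

variable [IsAlgClosed k]

theorem hgt_inv (f : K) : hgt k f⁻¹ = hgt k f := by
  obtain ⟨T, hT⟩ := exists_supp (k := k) (Finset.univ : Finset (Fin 1)) ![f]
  have h1 : ∀ P : Place k K, P.ord f ≠ 0 → P ∈ T := fun P => hT 0 (Finset.mem_univ _) P
  have h3 : ∀ P : Place k K, P.ord f⁻¹ ≠ 0 → P ∈ T := by
    intro P hP
    apply h1
    intro h0
    apply hP
    rw [P.ord_inv, h0, neg_zero]
  have h4 := sum_ord_finset f T h1
  rw [hgt_finset _ T h1, hgt_finset _ T h3, ← sub_eq_zero, ← Finset.sum_sub_distrib, ← h4]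
  refine Finset.sum_congr rfl fun P _ => ?_
  rw [P.ord_inv]
  omega

theorem hgt_zpow {f : K} (hf : f ≠ 0) (n : ℤ) : hgt k (f ^ n) = |n| * hgt k f := by
  cases n with
  | ofNat n =>
    rw [Int.ofNat_eq_natCast, zpow_natCast, hgt_pow hf, Nat.abs_cast]
  | negSucc n =>
    rw [zpow_negSucc, hgt_inv, hgt_pow hf]
    have h1 : |Int.negSucc n| = (n : ℤ) + 1 := by
      rw [Int.negSucc_eq, abs_neg, abs_of_nonneg (by positivity)]
    rw [h1]; push_cast; ring

omit [IsAlgClosed k] in
theorem hgt_prod_le {ι : Type*} (s : Finset ι) (f : ι → K) (h : ∀ i ∈ s, f i ≠ 0) :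
    hgt k (∏ i ∈ s, f i) ≤ ∑ i ∈ s, hgt k (f i) := by
  classical
  induction s using Finset.induction_on with
  | empty => simp [hgt_one]
  | insert a s ha ih =>
    rw [Finset.prod_insert ha, Finset.sum_insert ha]
    have h1 := hgt_mul (k := k) (h a (Finset.mem_insert_self a s))
      (Finset.prod_ne_zero_iff.2 fun i hi => h i (Finset.mem_insert_of_mem hi))
    have h2 := ih fun i hi => h i (Finset.mem_insert_of_mem hi)
    linarith

/-- functions without poles are constant -/
theorem const_of_hgt {f : K} (h : hgt k f ≤ 0) : ∃ c : k, f = algebraMap k K c := by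
  by_cases hf : Transcendental k f
  · exfalso
    obtain ⟨T, hT⟩ := exists_supp (k := k) (Finset.univ : Finset (Fin 1)) ![f]
    have h1 : ∀ P : Place k K, P.ord f ≠ 0 → P ∈ T := fun P => hT 0 (Finset.mem_univ _) P
    obtain ⟨S, hS, hS2⟩ := poles (k := k) hf
    have h2 := IsFF.finite hf
    have h3 : 0 < Module.finrank (IntermediateField.adjoin k {f}) K := Module.finrank_pos
    rw [← hS2] at h3
    obtain ⟨w, hw, -⟩ := Finset.exists_ne_zero_of_sum_ne_zero h3.ne'
    have h4 := (hS w).1 hw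
    rw [hgt_finset _ T h1] at h
    have h5 := Finset.single_le_sum (f := fun P : Place k K => max (-P.ord f) 0)
      (fun P _ => le_max_right _ _) (h1 w h4.ne)
    have h6 : (0 : ℤ) < max (-w.ord f) 0 := lt_max_of_lt_left (by omega)
    linarith
  · have h1 : IsAlgebraic k f := by
      by_contra hcon; exact hf hcon
    obtain ⟨D, hD⟩ := exists_der (k := k) (K := K)
    have h2 := IsAlgClosed.degree_eq_one_of_irreducible k (minpoly.irreducible h1.isIntegral)
    obtain ⟨c, hc⟩ := minpoly.mem_range_of_degree_eq_one k f h2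
    exact ⟨c, hc.symm⟩

/-- The height inequality. -/
theorem height_ineq (S : Finset (Place k K)) {m N : ℕ} (hN0 : 0 < N) (hN : m ^ 2 ≤ N)
    (f : Fin (m + 1) → K) (hf0 : ∀ i, f i ≠ 0) (hsum : ∑ i, f i = 0)
    (hlin : LinearIndependent k (fun l => f ((Fin.last m).succAbove l)))
    (hdvd : ∀ P ∉ S, ∀ i j, (N : ℤ) ∣ P.ord (f i) - P.ord (f j)) (i j : Fin (m + 1)) :
    hgt k (f i / f j) ≤ N * tri m * (canDeg k K + S.card) := by
  classical
  obtain ⟨D, hD⟩ := exists_der (k := k) (K := K)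
  have hW := wr_ne_zero hD _ hlin
  set W := wr D (fun l => f ((Fin.last m).succAbove l)) with hWd
  -- the minimal orders
  have hmin : ∀ P : Place k K, ∃ i0, ∀ i, P.ord (f i0) ≤ P.ord (f i) := by
    intro P
    obtain ⟨i0, -, h⟩ := Finset.exists_min_image Finset.univ (fun i => P.ord (f i))
      ⟨0, Finset.mem_univ _⟩
    exact ⟨i0, fun i => h i (Finset.mem_univ _)⟩
  choose i0 hi0 using hmin
  set μ : Place k K → ℤ := fun P => P.ord (f (i0 P)) with hμ
  -- a large finite set
  obtain ⟨T1, hT1⟩ := exists_supp (k := k) Finset.univ f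
  obtain ⟨T2, hT2⟩ := exists_supp (k := k) (Finset.univ : Finset (Fin 1)) ![W]
  set T : Finset (Place k K) := T1 ∪ T2 ∪ (vo_finite hD).toFinset ∪ S with hT
  have hTf : ∀ i, ∀ P : Place k K, P.ord (f i) ≠ 0 → P ∈ T := by
    intro i P hP
    have := hT1 i (Finset.mem_univ _) P hP
    simp [hT, this]
  have hTW : ∀ P : Place k K, P.ord W ≠ 0 → P ∈ T := by
    intro P hP
    have := hT2 0 (Finset.mem_univ _) P hP
    simp [hT, this]
  have hTv : ∀ P : Place k K, vo P D ≠ 0 → P ∈ T := by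
    intro P hP
    simp [hT, hP]
  have hST : S ⊆ T := by
    intro P hP
    simp [hT, hP]
  set n : Place k K → ℤ := fun P => ((Finset.univ.filter fun i => μ P < P.ord (f i)).card : ℤ)
    with hn
  set H : ℤ := - ∑ P ∈ T, μ P with hH
  have hsumf : ∀ i, ∑ P ∈ T, P.ord (f i) = 0 := fun i => sum_ord_finset _ T (hTf i)
  -- local estimates
  have hloc : ∀ P ∈ T, tri m * vo P D + ∑ i, P.ord (f i) - μ P -
      (if P ∈ S then tri m else ((m - 1 : ℕ) : ℤ) * n P) ≤ P.ord W := by
    intro P _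
    refine local_est P hD f hf0 hsum hW (μ P) (hi0 P) (i0 P) rfl _ ?_
    by_cases hPS : P ∈ S
    · left; rw [if_pos hPS]
    · right; rw [if_neg hPS]
  have h1 := Finset.sum_le_sum hloc
  rw [sum_ord_finset W T hTW] at h1
  have h2 : ∑ P ∈ T, (tri m * vo P D + ∑ i, P.ord (f i) - μ P -
      (if P ∈ S then tri m else ((m - 1 : ℕ) : ℤ) * n P)) =
      tri m * (- canDeg k K) + H - (tri m * S.card + ((m - 1 : ℕ) : ℤ) * ∑ P ∈ T \ S, n P) := by
    rw [Finset.sum_sub_distrib, Finset.sum_sub_distrib, Finset.sum_add_distrib, ← Finset.mul_sum,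
      canDeg_finset hD T hTv, Finset.sum_comm, Finset.sum_congr rfl fun i _ => hsumf i]
    have h3 : ∑ P ∈ T, (if P ∈ S then tri m else ((m - 1 : ℕ) : ℤ) * n P) =
        tri m * S.card + ((m - 1 : ℕ) : ℤ) * ∑ P ∈ T \ S, n P := by
      rw [← Finset.sum_sdiff hST, add_comm, Finset.mul_sum]
      congr 1
      · rw [Finset.sum_congr rfl fun P hP => if_pos hP, Finset.sum_const, nsmul_eq_mul, mul_comm]
      · exact Finset.sum_congr rfl fun P hP => if_neg (Finset.mem_sdiff.1 hP).2
    rw [h3, hH]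
    simp only [Finset.sum_const_zero, add_zero]
    ring
  rw [h2] at h1
  -- powers
  have h4 : ∀ P ∈ T \ S, (N : ℤ) * n P ≤ ∑ i, (P.ord (f i) - μ P) := by
    intro P hP
    have hPS := (Finset.mem_sdiff.1 hP).2
    have h5 : (N : ℤ) * n P = ∑ i, if μ P < P.ord (f i) then (N : ℤ) else 0 := by
      rw [← Finset.sum_filter, Finset.sum_const, nsmul_eq_mul, mul_comm]
    rw [h5]
    refine Finset.sum_le_sum fun i _ => ?_
    split_ifs with h6
    · exact Int.le_of_dvd (by linarith) (hdvd P hPS i (i0 P))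
    · exact sub_nonneg.2 (hi0 P i)
  have h5 : ∀ P ∈ T, 0 ≤ ∑ i, (P.ord (f i) - μ P) := fun P _ =>
    Finset.sum_nonneg fun i _ => sub_nonneg.2 (hi0 P i)
  have h6 : ∑ P ∈ T, ∑ i, (P.ord (f i) - μ P) = (m + 1) * H := by
    rw [Finset.sum_comm]
    have : ∀ i : Fin (m + 1), ∑ P ∈ T, (P.ord (f i) - μ P) = H := by
      intro i
      rw [Finset.sum_sub_distrib, hsumf, hH]; ring
    rw [Finset.sum_congr rfl fun i _ => this i, Finset.sum_const]
    simp
  have h7 : (N : ℤ) * ∑ P ∈ T \ S, n P ≤ (m + 1) * H := by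
    rw [← h6, Finset.mul_sum]
    refine (Finset.sum_le_sum h4).trans ?_
    exact Finset.sum_le_sum_of_subset_of_nonneg Finset.sdiff_subset fun P hP _ => h5 P hP
  have hH0 : 0 ≤ H := by
    have : ∑ P ∈ T, (P.ord (f 0) - μ P) = H := by
      rw [Finset.sum_sub_distrib, hsumf, hH]; ring
    rw [← this]
    exact Finset.sum_nonneg fun P _ => sub_nonneg.2 (hi0 P 0)
  have h8 : H ≤ N * tri m * (canDeg k K + S.card) := by
    have hNm : (m : ℤ) ^ 2 ≤ N := by exact_mod_cast hN
    have hN0' : (1 : ℤ) ≤ N := by exact_mod_cast hN0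
    have h9 : (N : ℤ) * H ≤ N * (tri m * (canDeg k K + S.card)) +
        ((m - 1 : ℕ) : ℤ) * ((m + 1) * H) := by
      have h10 := mul_le_mul_of_nonneg_left h1 (by positivity : (0 : ℤ) ≤ N)
      have h11 := mul_le_mul_of_nonneg_left h7 (by positivity : (0 : ℤ) ≤ ((m - 1 : ℕ) : ℤ))
      nlinarith
    rcases Nat.eq_zero_or_pos m with rfl | hm
    · simp only [Nat.zero_sub, Nat.cast_zero, zero_mul, add_zero] at h9
      nlinarith
    · have h12 : ((m - 1 : ℕ) : ℤ) = m - 1 := by push_cast [Nat.cast_sub hm]; ring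
      rw [h12] at h9
      nlinarith
  refine le_trans ?_ h8
  -- the height of a ratio
  have hij : ∀ P : Place k K, P.ord (f i / f j) ≠ 0 → P ∈ T := by
    intro P hP
    by_contra hcon
    apply hP
    have h9 : P.ord (f i) = 0 := by
      by_contra h; exact hcon (hTf i P h)
    have h10 : P.ord (f j) = 0 := by
      by_contra h; exact hcon (hTf j P h)
    rw [P.ord_div (hf0 i) (hf0 j), h9, h10]; rfl
  rw [hgt_finset _ T hij]
  have h9 : ∑ P ∈ T, (P.ord (f j) - μ P) = H := by
    rw [Finset.sum_sub_distrib, hsumf, hH]; ring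
  rw [← h9]
  refine Finset.sum_le_sum fun P _ => ?_
  rw [P.ord_div (hf0 i) (hf0 j)]
  have := hi0 P i
  have := hi0 P j
  simp only [hμ]
  omega

end Pool.Agent.W603.LV
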