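import Pool.Agent.Helper12.G.R_seed8.W603.LV.Can

/-! Only finitely many places ramify; the order of a derivation is zero at almost all places. -/

set_option autoImplicit false

open Polynomial FF

namespace Pool.Agent.W603.LV

variable {k K : Type*} [Field k] [Field K] [Algebra k K]

/-- orders of polynomials in `t` are multiples of the order of `t - c` -/
theorem dvd_ord_aeval (P : Place k K) {t : K} {c : k} (h : 0 < P.ord (t - algebraMap k K c))
    (g : k[X]) (hg : aeval t g ≠ 0) : P.ord (t - algebraMap k K c) ∣ P.ord (aeval t g) := by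
  set τ := t - algebraMap k K c with hτ
  have hτ0 : τ ≠ 0 := by
    intro h0
    rw [h0, P.ord_zero] at h; exact lt_irrefl _ h
  have hτ1 : Ge P 1 τ := Or.inr h
  have ht : Ge P 0 t := by
    have h1 : t = τ + algebraMap k K c := by rw [hτ]; ring
    rw [h1]
    exact (hτ1.mono (by norm_num)).add (Ge.const c)
  have hg0 : g ≠ 0 := by
    rintro rfl
    exact hg (map_zero _)
  obtain ⟨q, hq, hq'⟩ := exists_eq_pow_rootMultiplicity_mul_and_not_dvd g hg0 c
  have h1 : aeval t g = τ ^ (rootMultiplicity c g) * aeval t q := by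
    conv_lhs => rw [hq]
    rw [map_mul, map_pow, map_sub, aeval_X, aeval_C]
  have hq0 : aeval t q ≠ 0 := by
    intro h0
    apply hg
    rw [h1, h0, mul_zero]
  have h2 : P.ord (aeval t q) = 0 := by
    have h3 : eval c q ≠ 0 := by
      intro h0
      exact hq' (dvd_iff_isRoot.2 h0)
    obtain ⟨r, hr⟩ := (X_sub_C_dvd_sub_C_eval (a := c) (p := q))
    have h4 : aeval t q = algebraMap k K (eval c q) + τ * aeval t r := by
      have h5 := congrArg (aeval t) hr
      rw [map_sub, map_mul, map_sub, aeval_X, aeval_C, aeval_C] at h5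
      linear_combination h5
    have h6 : Ge P 1 (τ * aeval t r) := by
      have := hτ1.mul (ge_aeval P ht r)
      simpa using this
    rcases h6 with h6 | h6
    · rw [h4, h6, add_zero, P.ord_const h3]
    · by_cases h7 : τ * aeval t r = 0
      · rw [h4, h7, add_zero, P.ord_const h3]
      · rw [h4]
        have h8 : algebraMap k K (eval c q) ≠ 0 := by
          rw [Ne, map_eq_zero]; exact h3
        rw [(P.ord_add_eq h8 h7 (by rw [P.ord_const h3]; omega)).2, P.ord_const h3]
  rw [h1, P.ord_mul (pow_ne_zero _ hτ0) hq0, h2, add_zero, P.ord_pow]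
  exact Dvd.intro_left _ rfl

variable [CharZero k] [IsFF k K] [IsAlgClosed k]

/-- unramified places -/
theorem unramified {t : K} {y : K} (hgen : ∀ f : K, ∃ (A : k[X][X]) (B : k[X]), aeval t B ≠ 0 ∧
    f * aeval t B = E2 t y A) {G : k[X][X]} (hG : E2 t y G = 0) (P : Place k K)
    (ht : Ge P 0 t) (hy : Ge P 0 y) (hG0 : E2 t y (derivative G) ≠ 0)
    (hG' : P.ord (E2 t y (derivative G)) = 0) {c : k} (hc : 0 < P.ord (t - algebraMap k K c)) :
    P.ord (t - algebraMap k K c) = 1 := by
  set γ := E2 t y (derivative G) with hγ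
  obtain ⟨γ0, hγ0⟩ := exists_const P (f := γ) (Or.inr hG'.ge)
  have hγ00 : γ0 ≠ 0 := by
    rintro rfl
    rw [map_zero, sub_zero] at hγ0
    have := hγ0.resolve_left hG0
    omega
  have hγK : algebraMap k K γ0 ≠ 0 := by rw [Ne, map_eq_zero]; exact hγ00
  -- approximation of `y`
  have happ : ∀ N : ℕ, ∃ p : k[X], Ge P (N + 1 : ℕ) (y - aeval t p) := by
    intro N
    induction N with
    | zero =>
      obtain ⟨d, hd⟩ := exists_const P hy
      exact ⟨C d, by simpa using hd⟩
    | succ N ih =>
      obtain ⟨p, hp⟩ := ih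
      have hq : Ge P 0 (aeval t p) := ge_aeval P ht p
      obtain ⟨r, hr, e⟩ := E2_taylor P ht hy hq G
      have e1 : E2 t (aeval t p) G = aeval t (eval p G) := by
        rw [E2_apply]
        exact eval₂_at_apply ((aeval t : k[X] →ₐ[k] K) : k[X] →+* K) p
      refine ⟨p - C γ0⁻¹ * eval p G, ?_⟩
      have e2 : y - aeval t (p - C γ0⁻¹ * eval p G) =
          (aeval t p - y) * ((γ - algebraMap k K γ0) * algebraMap k K γ0⁻¹) +
            algebraMap k K γ0⁻¹ * (r * (aeval t p - y) ^ 2) := by
        rw [map_sub, map_mul, aeval_C, ← e1, e, hG, ← hγ, map_inv₀]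
        field_simp
        ring
      rw [e2]
      have hp' : Ge P (N + 1 : ℕ) (aeval t p - y) := by rw [← neg_sub]; exact hp.neg
      refine Ge.add ?_ ?_
      · have := hp'.mul (hγ0.mul (Ge.const γ0⁻¹))
        exact this.mono (by push_cast; linarith)
      · have := (Ge.const (P := P) γ0⁻¹).mul (hr.mul (hp'.pow 2))
        exact this.mono (by push_cast; linarith)
  -- all orders are multiples of `e`
  have hdvd : ∀ A : k[X][X], E2 t y A ≠ 0 →
      P.ord (t - algebraMap k K c) ∣ P.ord (E2 t y A) := by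
    intro A hA
    have h0 : 0 ≤ P.ord (E2 t y A) := (reg_E2 P ht hy A).resolve_left hA
    obtain ⟨p, hp⟩ := happ (P.ord (E2 t y A)).toNat
    have h1 := E2_sub P ht hy (ge_aeval P ht p) hp A
    have e1 : E2 t (aeval t p) A = aeval t (eval p A) := by
      rw [E2_apply]
      exact eval₂_at_apply ((aeval t : k[X] →ₐ[k] K) : k[X] →+* K) p
    rw [e1] at h1
    have h2 : aeval t (eval p A) ≠ 0 := by
      intro h3
      rw [h3, sub_zero] at h1
      have := h1.resolve_left hA
      push_cast at this
      omega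
    have h3 : P.ord (aeval t (eval p A)) = P.ord (E2 t y A) := by
      by_cases h4 : E2 t y A - aeval t (eval p A) = 0
      · rw [sub_eq_zero.1 h4]
      · have h5 := h1.resolve_left h4
        push_cast at h5
        have h6 := P.ord_add_eq (f := E2 t y A) (g := -(E2 t y A - aeval t (eval p A))) hA
          (neg_ne_zero.2 h4) (by rw [P.ord_neg]; omega)
        rw [← h6.2]
        congr 1
        ring
    rw [← h3]
    exact dvd_ord_aeval P hc _ h2
  have hall : ∀ f : K, f ≠ 0 → P.ord (t - algebraMap k K c) ∣ P.ord f := by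
    intro f hf
    obtain ⟨A, B, hB, e⟩ := hgen f
    have h1 : E2 t y A ≠ 0 := by rw [← e]; exact mul_ne_zero hf hB
    have h2 := hdvd A h1
    rw [← e, P.ord_mul hf hB] at h2
    exact (Int.dvd_iff_dvd_of_dvd_add h2).2 (dvd_ord_aeval P hc _ hB)
  obtain ⟨s, hs0, hs⟩ := P.surj
  have := hall s hs0
  rw [hs] at this
  exact Int.eq_one_of_dvd_one hc.le this

/-- the order of a derivation vanishes at almost all places -/
theorem vo_finite {D : Derivation k K K} (hD : D ≠ 0) : {P : Place k K | vo P D ≠ 0}.Finite := by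
  obtain ⟨t, ht⟩ := IsFF.exists_transcendental (k := k) (K := K)
  obtain ⟨y, hgen⟩ := exists_gen ht
  obtain ⟨G, hG, hG0⟩ := exists_poly ht y
  have hfin : ({P : Place k K | P.ord t ≠ 0} ∪ {P | P.ord y ≠ 0} ∪
      {P | P.ord (E2 t y (derivative G)) ≠ 0} ∪ {P | P.ord (D t) ≠ 0}).Finite :=
    (((finite_support t).union (finite_support y)).union (finite_support _)).union
      (finite_support _)
  refine hfin.subset fun P hP => ?_
  by_contra hcon
  simp only [Set.mem_union, Set.mem_ofPred_eq, not_or, not_not] at hcon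
  obtain ⟨⟨⟨h1, h2⟩, h3⟩, h4⟩ := hcon
  have ht0 : Ge P 0 t := Or.inr h1.ge
  obtain ⟨c, hc⟩ := exists_const P ht0
  have hc0 : t - algebraMap k K c ≠ 0 := by
    intro h0
    apply ht
    rw [sub_eq_zero.1 h0]
    exact isAlgebraic_algebraMap c
  have hc1 : 0 < P.ord (t - algebraMap k K c) := hc.resolve_left hc0
  have h5 := unramified hgen hG P ht0 (Or.inr h2.ge) hG0 h3 hc1
  have h6 := (ord_der P hD (f := t - algebraMap k K c) (by omega)).2
  rw [map_sub, Derivation.map_algebraMap, sub_zero, h4, h5] at h6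
  apply hP
  omega

end Pool.Agent.W603.LV
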