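import Pool.Agent.Helper12.G.R_seed8.W603.LV.Ex

/-! Wronskians in function fields. -/

set_option autoImplicit false

open FF

namespace Pool.Agent.W603.LV

variable {k K : Type*} [Field k] [Field K] [Algebra k K]

/-- the Wronskian matrix -/
noncomputable def wm {m n : ℕ} (D : Derivation k K K) (f : Fin m → K) : Matrix (Fin m) (Fin n) K :=
  Matrix.of fun i r => (⇑D)^[(r : ℕ)] (f i)

/-- the Wronskian -/
noncomputable def wr {m : ℕ} (D : Derivation k K K) (f : Fin m → K) : K :=
  (wm (n := m) D f).det

theorem iter_sum (D : Derivation k K K) (r : ℕ) {ι : Type*} (s : Finset ι) (f : ι → K) :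
    (⇑D)^[r] (∑ i ∈ s, f i) = ∑ i ∈ s, (⇑D)^[r] (f i) := by
  induction r with
  | zero => rfl
  | succ r ih =>
    rw [Function.iterate_succ_apply', ih, map_sum]
    exact Finset.sum_congr rfl fun i _ => (Function.iterate_succ_apply' _ _ _).symm

/-- removing one function from a family with sum zero -/
theorem wr_succAbove {m : ℕ} (D : Derivation k K K) (f : Fin (m + 1) → K) (hf : ∑ i, f i = 0)
    (i j : Fin (m + 1)) : wr D (fun l => f (i.succAbove l)) = wr D (fun l => f (j.succAbove l)) ∨
      wr D (fun l => f (i.succAbove l)) = - wr D (fun l => f (j.succAbove l)) := by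
  have h0 : ∑ l, wm (n := m) D f l = 0 := by
    have e : (∑ l, wm (n := m) D f l) = fun r : Fin m => ∑ l, (⇑D)^[(r : ℕ)] (f l) := by
      funext r
      exact Finset.sum_apply r Finset.univ (fun l => (fun r : Fin m => (⇑D)^[(r : ℕ)] (f l)))
    rw [e]
    funext r
    change ∑ l, (⇑D)^[(r : ℕ)] (f l) = 0
    rw [← iter_sum, hf]
    generalize (r : ℕ) = q
    induction q with
    | zero => rfl
    | succ q ih => rw [Function.iterate_succ_apply', ih, map_zero]
  have h1 := Matrix.submatrix_succAbove_det_eq_negOnePow_submatrix_succAbove_det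
    (wm (n := m) D f) h0 i j
  have h2 : ∀ l : Fin (m + 1), ((wm (n := m) D f).submatrix (Fin.succAbove l) id).det =
      wr D (fun i => f (l.succAbove i)) := fun l => rfl
  rw [h2, h2] at h1
  rcases Int.units_eq_one_or (Int.negOnePow ((i : ℤ) - (j : ℤ))) with h3 | h3
  · left; rw [h1, h3, one_smul]
  · right; rw [h1, h3]; simp

/-- coefficients of `(u δ) ^ r ∘ c` -/
noncomputable def tc (δ : Derivation k K K) (u c : K) : ℕ → ℕ → K
  | 0, 0 => c
  | 0, _ + 1 => 0
  | r + 1, 0 => u * δ (tc δ u c r 0)
  | r + 1, i + 1 => u * (δ (tc δ u c r (i + 1)) + tc δ u c r i)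

theorem tc_zero (δ : Derivation k K K) (u c : K) (r : ℕ) : ∀ i, r < i → tc δ u c r i = 0 := by
  induction r with
  | zero =>
    intro i hi
    obtain ⟨j, rfl⟩ : ∃ j, i = j + 1 := ⟨i - 1, by omega⟩
    rfl
  | succ r ih =>
    intro i hi
    obtain ⟨j, rfl⟩ : ∃ j, i = j + 1 := ⟨i - 1, by omega⟩
    change u * (δ (tc δ u c r (j + 1)) + tc δ u c r j) = 0
    rw [ih _ (by omega), ih _ (by omega)]; simp

theorem tc_diag (δ : Derivation k K K) (u c : K) (r : ℕ) : tc δ u c r r = u ^ r * c := by
  induction r with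
  | zero => simp [tc]
  | succ r ih =>
    change u * (δ (tc δ u c r (r + 1)) + tc δ u c r r) = _
    rw [tc_zero _ _ _ _ _ (by omega), ih]; simp; ring

theorem tc_spec (δ : Derivation k K K) (u c g : K) (m : ℕ) (r : ℕ) (hr : r < m) :
    (⇑(u • δ))^[r] (c * g) = ∑ i ∈ Finset.range m, tc δ u c r i * (⇑δ)^[i] g := by
  induction r with
  | zero =>
    rw [Finset.sum_eq_single 0]
    · rfl
    · intro i _ hi
      rw [tc_zero _ _ _ _ _ (by omega)]; simp
    · intro h
      exact absurd (Finset.mem_range.2 hr) h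
  | succ r ih =>
    rw [Function.iterate_succ_apply', ih (by omega), map_sum]
    have h1 : ∀ i ∈ Finset.range m, (u • δ) (tc δ u c r i * (⇑δ)^[i] g) =
        u * δ (tc δ u c r i) * (⇑δ)^[i] g + u * tc δ u c r i * (⇑δ)^[i + 1] g := by
      intro i _
      rw [Derivation.coe_smul, Pi.smul_apply, δ.leibniz, Function.iterate_succ_apply']
      simp only [smul_eq_mul]; ring
    rw [Finset.sum_congr rfl h1, Finset.sum_add_distrib]
    obtain ⟨q, rfl⟩ : ∃ q, m = q + 1 := ⟨m - 1, by omega⟩
    rw [Finset.sum_range_succ' (fun i => tc δ u c (r + 1) i * (⇑δ)^[i] g)]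
    rw [Finset.sum_range_succ' (fun i => u * δ (tc δ u c r i) * (⇑δ)^[i] g)]
    rw [Finset.sum_range_succ (fun i => u * tc δ u c r i * (⇑δ)^[i + 1] g)]
    rw [tc_zero _ _ _ _ q (by omega)]
    have h2 : ∀ i, tc δ u c (r + 1) (i + 1) = u * (δ (tc δ u c r (i + 1)) + tc δ u c r i) :=
      fun i => rfl
    have h3 : tc δ u c (r + 1) 0 = u * δ (tc δ u c r 0) := rfl
    simp only [h2, h3, mul_zero, zero_mul, add_zero]
    rw [add_right_comm, ← Finset.sum_add_distrib]
    congr 1
    exact Finset.sum_congr rfl fun i _ => by ring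

theorem wr_change {m : ℕ} (δ : Derivation k K K) (u c : K) (g : Fin m → K) :
    wr (u • δ) (fun i => c * g i) = (∏ r : Fin m, u ^ (r : ℕ) * c) * wr δ g := by
  have h1 : wm (n := m) (u • δ) (fun i => c * g i) = wm (n := m) δ g *
      Matrix.of (fun s r : Fin m => tc δ u c r s) := by
    ext i r
    rw [Matrix.mul_apply]
    change (⇑(u • δ))^[(r : ℕ)] (c * g i) = ∑ s : Fin m, (⇑δ)^[(s : ℕ)] (g i) * tc δ u c r s
    rw [tc_spec δ u c (g i) m r r.2, Finset.sum_range]
    exact Finset.sum_congr rfl fun s _ => by ring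
  unfold wr
  rw [h1, Matrix.det_mul, mul_comm]
  congr 1
  rw [Matrix.det_of_isUpperTriangular]
  · refine Finset.prod_congr rfl fun r _ => ?_
    exact tc_diag δ u c r
  · intro s r hrs
    exact tc_zero _ _ _ _ _ hrs

variable [CharZero k] [IsFF k K] [IsAlgClosed k]

/-- Wronskians of linearly independent functions do not vanish. -/
theorem wr_ne_zero {D : Derivation k K K} (hD : D ≠ 0) {m : ℕ} :
    ∀ f : Fin m → K, LinearIndependent k f → wr D f ≠ 0 := by
  induction m with
  | zero =>
    intro f _
    unfold wr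
    rw [Matrix.det_isEmpty]; exact one_ne_zero
  | succ m ih =>
    intro f hf h0
    unfold wr at h0
    obtain ⟨v, hv0, hv⟩ := Matrix.exists_vecMul_eq_zero_iff.2 h0
    have hrel : ∀ r : Fin (m + 1), ∑ i, v i * (⇑D)^[(r : ℕ)] (f i) = 0 := by
      intro r
      have := congrFun hv r
      exact this
    have hg : LinearIndependent k (fun i : Fin m => f i.castSucc) :=
      hf.comp _ (Fin.castSucc_injective m)
    have hW := ih _ hg
    have hlast : v (Fin.last m) ≠ 0 := by
      intro hl
      apply hv0
      have h1 : (fun i : Fin m => v i.castSucc) = 0 := by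
        apply Matrix.eq_zero_of_vecMul_eq_zero hW
        funext r
        have := hrel r.castSucc
        rw [Fin.sum_univ_castSucc, hl, zero_mul, add_zero] at this
        exact this
      funext i
      refine Fin.lastCases ?_ (fun i => ?_) i
      · exact hl
      · exact congrFun h1 i
    -- normalise
    set h : Fin m → K := fun i => v i.castSucc / v (Fin.last m) with hh
    have hrel2 : ∀ r : Fin (m + 1), ∑ i : Fin m, h i * (⇑D)^[(r : ℕ)] (f i.castSucc) +
        (⇑D)^[(r : ℕ)] (f (Fin.last m)) = 0 := by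
      intro r
      have := hrel r
      rw [Fin.sum_univ_castSucc] at this
      have h2 : ∑ i : Fin m, h i * (⇑D)^[(r : ℕ)] (f i.castSucc) =
          (∑ i : Fin m, v i.castSucc * (⇑D)^[(r : ℕ)] (f i.castSucc)) / v (Fin.last m) := by
        rw [Finset.sum_div]
        exact Finset.sum_congr rfl fun i _ => by simp only [hh]; ring
      rw [h2]
      field_simp
      rw [mul_zero]
      exact this
    have hDh : (fun i : Fin m => D (h i)) = 0 := by
      apply Matrix.eq_zero_of_vecMul_eq_zero hW
      funext r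
      have h1 := congrArg D (hrel2 r.castSucc)
      have h2 := hrel2 r.succ
      rw [map_zero, map_add, map_sum] at h1
      simp only [Fin.val_castSucc, Fin.val_succ, D.leibniz, smul_eq_mul,
        Function.iterate_succ_apply', Finset.sum_add_distrib] at h1 h2
      change ∑ i : Fin m, D (h i) * (⇑D)^[(r : ℕ)] (f i.castSucc) = 0
      have h3 : ∑ i : Fin m, D (h i) * (⇑D)^[(r : ℕ)] (f i.castSucc) =
          ∑ i : Fin m, (⇑D)^[(r : ℕ)] (f i.castSucc) * D (h i) :=
        Finset.sum_congr rfl fun i _ => mul_comm _ _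
      rw [h3]
      linear_combination h1 - h2
    have hconst : ∀ i, ∃ c : k, h i = algebraMap k K c := fun i =>
      const_of_der hD (congrFun hDh i)
    choose c hc using hconst
    have h4 := hrel2 0
    simp only [Fin.val_zero, Function.iterate_zero, id_eq] at h4
    have h5 := Fintype.linearIndependent_iff.1 hf (Fin.snoc c 1) (by
      rw [Fin.sum_univ_castSucc]
      simp only [Fin.snoc_castSucc, Fin.snoc_last, one_smul]
      rw [← h4]
      congr 1
      exact Finset.sum_congr rfl fun i _ => by rw [Algebra.smul_def, hc]) (Fin.last m)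
    rw [Fin.snoc_last] at h5
    exact one_ne_zero h5

end Pool.Agent.W603.LV
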